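import Mathlib

set_option autoImplicit false
set_option maxHeartbeats 400000

namespace Pool.Agent.H.MP_466bd8_al

open MeasureTheory TopologicalSpace BoundedContinuousFunction CompactlySupported

structure Ker (A B : Type) [TopologicalSpace A] [MeasurableSpace A] [TopologicalSpace B]
    [MeasurableSpace B] (k : A → B → Measure A) : Prop where
  prob : ∀ a b, IsProbabilityMeasure (k a b)
  meas : Measurable fun p : A × B => k p.1 p.2
  cont : ∀ f : A →ᵇ ℝ, Continuous fun p : A × B => ∫ z, f z ∂(k p.1 p.2)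
  supp : ∃ S : A × B → NonemptyCompacts A, Continuous S ∧ ∀ a b, (k a b).support = S (a, b)

structure Hyp (D : Type) [TopologicalSpace D] [MeasurableSpace D] where
  c : D → D → Measure D
  e : D
  bar : D → D
  ker : Ker D D c
  assoc : ∀ x y z, (c x y).bind (fun w => c w z) = (c y z).bind (fun w => c x w)
  unit : ∀ x, c x e = Measure.dirac x ∧ c e x = Measure.dirac x
  bar_cont : Continuous bar
  bar_bar : ∀ x, bar (bar x) = x
  e_mem : ∀ x y, e ∈ (c x y).support ↔ y = bar x
  anti : ∀ x y, (c x y).map bar = c (bar y) (bar x)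

section
variable {X D : Type} [TopologicalSpace X] [MeasurableSpace X] [TopologicalSpace D]
  [MeasurableSpace D]

def Adj (K : X → D → Measure X) (bar : D → D) (ω : Measure X) : Prop :=
  ω.Regular ∧ ω.IsOpenPosMeasure ∧ ∀ (h : D) (f g : C_c(X, ℝ)),
    ∫ x, (∫ y, f y ∂(K x (bar h))) * g x ∂ω = ∫ x, f x * (∫ y, g y ∂(K x h)) ∂ω

def LeftHaar (c : D → D → Measure D) (ω : Measure D) : Prop :=
  ω.Regular ∧ ω ≠ 0 ∧ ∀ (x : D) (f : C_c(D, ℝ)), ∫ y, (∫ z, f z ∂(c x y)) ∂ω = ∫ y, f y ∂ω

end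

structure CAS (X D : Type) [TopologicalSpace X] [MeasurableSpace X] [TopologicalSpace D]
    [MeasurableSpace D] where
  H : Hyp D
  K : X → D → Measure X
  π : X → X → D
  ker : Ker X D K
  part : ∀ x y h, y ∈ (K x h).support ↔ π x y = h
  π_cont : Continuous fun p : X × X => π p.1 p.2
  conv : ∀ x h₁ h₂, (K x h₁).bind (fun w => K w h₂) = (H.c h₁ h₂).bind (K x)
  unit : ∀ x, K x H.e = Measure.dirac x
  adj : ∃ ω, Adj K H.bar ω

section
variable {X D : Type} [TopologicalSpace X] [MeasurableSpace X] [TopologicalSpace D]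
  [MeasurableSpace D]

def T1 (C : CAS X D) : Prop := ∀ (h : D) (x y : X) (f : C_c(D, ℝ)),
  ∫ z, f z ∂(C.H.c (C.π x y) h) = ∫ z, f (C.π x z) ∂(C.K y h)

def T2 (C : CAS X D) : Prop := ∃ (ωX : Measure X) (ωD : Measure D),
  Adj C.K C.H.bar ωX ∧ LeftHaar C.H.c ωD ∧ ∀ (f : C_c(D, ℝ)) (g : C_c(X, ℝ)) (x : X),
    ∫ h, (∫ y, g y ∂(C.K x h)) * f h ∂ωD = ∫ y, f (C.π x y) * g y ∂ωX

end

def Nice (X : Type) [TopologicalSpace X] [MeasurableSpace X] : Prop :=
  LocallyCompactSpace X ∧ T2Space X ∧ SecondCountableTopology X ∧ BorelSpace X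

section grp
variable {G : Type} [Group G] [TopologicalSpace G] [IsTopologicalGroup G] [MeasurableSpace G]
  [BorelSpace G] [LocallyCompactSpace G] [T2Space G] [SecondCountableTopology G]

omit [Group G] [IsTopologicalGroup G] [LocallyCompactSpace G] [SecondCountableTopology G] in
lemma supp_dirac (a : G) : (Measure.dirac a).support = {a} := by
  ext x
  rw [Measure.mem_support_iff_forall, Set.mem_singleton_iff]
  constructor
  · intro h
    by_contra hx
    simpa using h {a}ᶜ (isOpen_compl_singleton.mem_nhds hx)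
  · rintro rfl U hU
    simp [Measure.dirac_apply_of_mem (mem_of_mem_nhds hU)]

omit [Group G] [IsTopologicalGroup G] [LocallyCompactSpace G] in
lemma eq_dirac {μ : Measure G} [IsProbabilityMeasure μ] {a : G} (h : μ.support = {a}) :
    μ = Measure.dirac a := by
  have h1 : ∀ᵐ x ∂μ, x = a := by
    have := μ.support_mem_ae
    rwa [h] at this
  rw [← Measure.map_id (μ := μ), Measure.map_congr (f := id) (g := fun _ => a) h1]
  simp

omit [LocallyCompactSpace G] in
lemma gker : Ker G G fun x y => Measure.dirac (x * y) where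
  prob _ _ := inferInstance
  meas := Measure.measurable_dirac.comp measurable_mul
  cont f := by simp only [integral_dirac]; exact f.continuous.comp continuous_mul
  supp := ⟨fun p => {p.1 * p.2}, NonemptyCompacts.continuous_singleton.comp continuous_mul,
    fun _ _ => supp_dirac _⟩

omit [LocallyCompactSpace G] [T2Space G] in
lemma gbind (x y z : G) : (Measure.dirac (x * y)).bind (fun w => Measure.dirac (w * z)) =
    (Measure.dirac (y * z)).bind (fun w => Measure.dirac (x * w)) := by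
  rw [Measure.dirac_bind (f := fun w => Measure.dirac (w * z))
      (Measure.measurable_dirac.comp (measurable_mul_const z)),
    Measure.dirac_bind (f := fun w => Measure.dirac (x * w))
      (Measure.measurable_dirac.comp (measurable_const_mul x)), mul_assoc]

noncomputable def gcas : CAS G G where
  H :=
    { c := fun x y => Measure.dirac (x * y)
      e := 1
      bar := fun x => x⁻¹
      ker := gker
      assoc := gbind
      unit := fun x => by simp
      bar_cont := continuous_inv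
      bar_bar := inv_inv
      e_mem := fun x y => by
        rw [supp_dirac, Set.mem_singleton_iff, eq_comm, mul_eq_one_iff_inv_eq, eq_comm]
      anti := fun x y => by rw [Measure.map_dirac' measurable_inv, mul_inv_rev] }
  K := fun x y => Measure.dirac (x * y)
  π := fun x y => x⁻¹ * y
  ker := gker
  part x y h := by rw [supp_dirac, Set.mem_singleton_iff, inv_mul_eq_iff_eq_mul]
  π_cont := by fun_prop
  conv := gbind
  unit x := by simp
  adj := ⟨Measure.haar.inv, inferInstance, inferInstance, fun h f g => by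
    simp only [integral_dirac]
    rw [← integral_mul_right_eq_self _ h]
    simp⟩

lemma gT1 : T1 (gcas (G := G)) := fun h x y f => by simp [gcas, mul_assoc]

noncomputable def sq (u : C_c(G, ℝ)) : C_c(G, ℝ) where
  toFun x := √(u x)
  continuous_toFun := u.continuous.sqrt
  hasCompactSupport' := u.hasCompactSupport.comp_left Real.sqrt_zero

noncomputable def tr (u : C_c(G, ℝ)) (a b : G) : C_c(G, ℝ) where
  toFun x := u (a * x * b)
  continuous_toFun := u.continuous.comp (by fun_prop)
  hasCompactSupport' :=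
    u.hasCompactSupport.comp_homeomorph ((Homeomorph.mulLeft a).trans (Homeomorph.mulRight b))

omit [LocallyCompactSpace G] in
lemma bi (C : CAS G G) (hπ : C.π = fun x y => x⁻¹ * y) (h : T2 C) :
    ∃ ω : Measure G, ω.Regular ∧ ω.IsOpenPosMeasure ∧ ∀ u : C_c(G, ℝ), (∀ x, 0 ≤ u x) → ∀ a b,
      ∫ x, u (a * x * b) ∂ω = ∫ x, u x ∂ω := by
  obtain ⟨ωX, ωD, ⟨r, o, hX⟩, ⟨-, -, hD⟩, h⟩ := h
  have hK : ∀ x h, C.K x h = Measure.dirac (x * h) := fun x h => by
    have := C.ker.prob x h
    refine eq_dirac (Set.ext fun y => ?_)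
    rw [C.part, hπ, Set.mem_singleton_iff, inv_mul_eq_iff_eq_mul]
  have hc : ∀ x y, C.H.c x y = Measure.dirac (x * y) := fun x y => by
    have := C.conv 1 x y
    simp only [funext (hK 1), hK, one_mul, Measure.bind_dirac] at this
    rw [← this, Measure.dirac_bind (f := fun w => Measure.dirac (w * y))
      (Measure.measurable_dirac.comp (measurable_mul_const y))]
  have he : C.H.e = 1 := by
    have := congrArg Measure.support (C.unit 1)
    simpa [hK, supp_dirac] using this
  have hb : ∀ x, C.H.bar x = x⁻¹ := fun x => ((C.H.e_mem x x⁻¹).1 (by simp [hc, he, supp_dirac])).symm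
  simp only [hK, hc, hb, hπ, integral_dirac] at h hX hD
  have e1 : ∀ u : C_c(G, ℝ), (∀ x, 0 ≤ u x) → ∫ x, u x ∂ωD = ∫ x, u x ∂ωX := fun u hu => by
    have := h (sq u) (sq u) 1
    simpa [sq, Real.mul_self_sqrt (hu _)] using this
  refine ⟨ωX, r, o, fun u hu a b => ?_⟩
  have e2 := hX b (tr (sq (tr u a 1)) 1 b) (sq (tr u a 1))
  have e3 := hD a u
  have e4 := e1 (tr u a 1) fun x => hu _
  rw [e1 u hu] at e3
  simp only [tr, sq, CompactlySupportedContinuousMap.coe_mk, ContinuousMap.coe_mk, mul_one, one_mul,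
    inv_mul_cancel_right, Real.mul_self_sqrt (hu _)] at e2 e4
  simp only [mul_assoc]
  rw [← e2, ← e4, e3]

end grp

def G : Type := ℝ × ℤ

instance : TopologicalSpace G := inferInstanceAs (TopologicalSpace (ℝ × ℤ))
instance : LocallyCompactSpace G := inferInstanceAs (LocallyCompactSpace (ℝ × ℤ))
instance : T2Space G := inferInstanceAs (T2Space (ℝ × ℤ))
instance : SecondCountableTopology G := inferInstanceAs (SecondCountableTopology (ℝ × ℤ))
instance : MeasurableSpace G := borel G
instance : BorelSpace G := ⟨rfl⟩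

noncomputable instance : Group G where
  mul p q := (p.1 + 2 ^ p.2 * q.1, p.2 + q.2)
  one := (0, 0)
  inv p := (-(2 ^ (-p.2) * p.1), -p.2)
  mul_assoc p q r := Prod.ext (by
    change p.1 + 2 ^ p.2 * q.1 + 2 ^ (p.2 + q.2) * r.1 = p.1 + 2 ^ p.2 * (q.1 + 2 ^ q.2 * r.1)
    rw [zpow_add₀ two_ne_zero]; ring) (add_assoc p.2 q.2 r.2)
  one_mul p := Prod.ext (by change 0 + 2 ^ (0 : ℤ) * p.1 = p.1; simp) (zero_add p.2)
  mul_one p := Prod.ext (by change p.1 + 2 ^ p.2 * 0 = p.1; simp) (add_zero p.2)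
  inv_mul_cancel p := Prod.ext (neg_add_cancel _) (neg_add_cancel p.2)

lemma c2 : Continuous fun m : ℤ => (2 : ℝ) ^ m := continuous_of_discreteTopology

instance : IsTopologicalGroup G where
  continuous_mul := by
    have := c2
    change Continuous fun p : (ℝ × ℤ) × (ℝ × ℤ) => (p.1.1 + 2 ^ p.1.2 * p.2.1, p.1.2 + p.2.2)
    fun_prop
  continuous_inv := by
    have := c2
    change Continuous fun p : ℝ × ℤ => (-(2 ^ (-p.2) * p.1), -p.2)
    exact ((c2.comp continuous_snd.neg).mul continuous_fst).neg.prodMk continuous_snd.neg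

noncomputable def tent (r : ℝ) : C_c(G, ℝ) where
  toFun p := max 0 (|r| - |p.1|) * max 0 (1 - |(p.2 : ℝ)|)
  continuous_toFun := by
    change Continuous fun p : ℝ × ℤ => max 0 (|r| - |p.1|) * max 0 (1 - |(p.2 : ℝ)|)
    fun_prop
  hasCompactSupport' := HasCompactSupport.intro
    ((isCompact_Icc (a := -|r|) (b := |r|)).prod (isCompact_singleton (x := (0 : ℤ)))) fun p hp => by
      by_contra h
      rw [mul_eq_zero, not_or, max_eq_left_iff, max_eq_left_iff, not_le, not_le] at h
      refine hp ⟨abs_le.1 (by linarith [h.1]), ?_⟩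
      have : |p.2| < 1 := by exact_mod_cast sub_pos.1 h.2
      exact Int.abs_lt_one_iff.1 this

lemma notT2 (C : CAS G G) (hπ : C.π = fun x y => x⁻¹ * y) : ¬ T2 C := fun h => by
  obtain ⟨ω, r, o, h⟩ := bi C hπ h
  have pos : ∀ r x, 0 ≤ tent r x := fun r x => mul_nonneg (le_max_left _ _) (le_max_left _ _)
  have i : ∀ u : C_c(G, ℝ), Integrable u ω := fun u =>
    u.continuous.integrable_of_hasCompactSupport u.hasCompactSupport
  have h1 := h (tent 1) (pos 1) ((1, 0) : ℝ × ℤ) 1
  have h2 := h (tent 1) (pos 1) ((-1, 0) : ℝ × ℤ) 1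
  have h3 := h (tent 2) (pos 2) ((0, 1) : ℝ × ℤ) ((0, -1) : ℝ × ℤ)
  have e1 : ∀ x : G, tent 2 x = 2 * tent 1 x + (tr (tent 1) ((1, 0) : ℝ × ℤ) 1 x +
      tr (tent 1) ((-1, 0) : ℝ × ℤ) 1 x) := fun x => by
    simp only [tr, CompactlySupportedContinuousMap.coe_mk, ContinuousMap.coe_mk, mul_one]
    change max 0 (|2| - |x.1|) * max 0 (1 - |(x.2 : ℝ)|) = 2 * (max 0 (|1| - |x.1|) *
      max 0 (1 - |(x.2 : ℝ)|)) + (max 0 (|1| - |1 + 2 ^ (0 : ℤ) * x.1|) *
      max 0 (1 - |((0 + x.2 : ℤ) : ℝ)|) + max 0 (|1| - |-1 + 2 ^ (0 : ℤ) * x.1|) *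
      max 0 (1 - |((0 + x.2 : ℤ) : ℝ)|))
    have : max 0 (|2| - |x.1|) = 2 * max 0 (|1| - |x.1|) + (max 0 (|1| - |1 + x.1|) +
        max 0 (|1| - |-1 + x.1|)) := by
      simp only [abs_two, abs_one, max_def, abs_eq_max_neg]
      split_ifs <;> linarith
    rw [this, zpow_zero, one_mul, zero_add]; ring
  have e3 : ∀ x : G, tent 2 ((show G from ((0, 1) : ℝ × ℤ)) * x * (show G from ((0, -1) : ℝ × ℤ))) =
      max 0 (1 - |((x.2 : ℤ) : ℝ)|) * (2 * max 0 (|1| - |x.1|)) := fun x => by
    change max 0 (|2| - |0 + 2 ^ (1 : ℤ) * x.1 + 2 ^ (1 + x.2) * 0|) *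
      max 0 (1 - |((1 + x.2 + -1 : ℤ) : ℝ)|) = _
    rw [show 1 + x.2 + -1 = x.2 by ring, mul_comm, mul_zero, add_zero, zero_add, zpow_one, abs_mul,
      mul_max_of_nonneg 0 (|1| - |x.1|) two_pos.le]
    simp [mul_sub]
  have e4 : ∫ x, tent 2 x ∂ω = 2 * ∫ x, tent 1 x ∂ω := by
    rw [← h3, ← integral_const_mul]
    exact integral_congr_ae (.of_forall fun x => (e3 x).trans (by
      change _ = 2 * (max 0 (|1| - |x.1|) * max 0 (1 - |(x.2 : ℝ)|)); ring))
  have e5 : ∫ x, tent 2 x ∂ω = 2 * ∫ x, tent 1 x ∂ω + (∫ x, tent 1 x ∂ω + ∫ x, tent 1 x ∂ω) := by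
    rw [integral_congr_ae (.of_forall e1)]
    refine (integral_add ((i _).const_mul 2) ((i _).add (i _))).trans ?_
    rw [integral_const_mul]
    exact congrArg _ ((integral_add (i _) (i _)).trans (congrArg₂ _ h1 h2))
  have : 0 < ∫ x, tent 1 x ∂ω := (tent 1).continuous.integral_pos_of_hasCompactSupport_nonneg_nonzero
    (tent 1).hasCompactSupport (pos 1) (x := 1) (by
      change max 0 (|1| - |(0 : ℝ)|) * max 0 (1 - |((0 : ℤ) : ℝ)|) ≠ 0
      simp)
  linarith

lemma nice : Nice G := ⟨inferInstance, inferInstance, inferInstance, inferInstance⟩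

end Pool.Agent.H.MP_466bd8_al
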